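import Pool.Agent.Helper32.Pierce.Final

/-!
Partial answer to Q1 of MP_d085fd_co: locally 2-pierceable finite families of convex sets in the
plane can be pierced by four points.
-/

namespace Pool.Agent.Results.MP_d085fd_co.FourPoints

/-- There is `k₀` such that every finite family of convex sets in the plane, all of whose
subfamilies with at most `k₀` members can be pierced by two points, can be pierced by four
points. -/
theorem result : ∃ k₀ : ℕ, ∀ F : Finset (Set (EuclideanSpace ℝ (Fin 2))),
    (∀ C ∈ F, Convex ℝ C) →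
    (∀ G ⊆ F, G.card ≤ k₀ →
      ∃ P : Finset (EuclideanSpace ℝ (Fin 2)), P.card ≤ 2 ∧ ∀ C ∈ G, ∃ p ∈ P, p ∈ C) →
    ∃ P : Finset (EuclideanSpace ℝ (Fin 2)), P.card ≤ 4 ∧ ∀ C ∈ F, ∃ p ∈ P, p ∈ C :=
  Pool.Agent.Helper32.Pierce.four

end Pool.Agent.Results.MP_d085fd_co.FourPoints
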